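import Pool.Agent.WIR.StmtsC

/-!
Squad WIR, row AWS: word sums.
-/

set_option autoImplicit false

namespace Pool.Agent.WIR.H47

open Pool.Agent.WIR
open scoped BigOperators

theorem rk_insert_self {a : ℕ} {t : Finset ℕ} (ht : ∀ p ∈ t, a < p) :
    rk (insert a t) a = 0 := by
  unfold rk
  rw [Finset.card_eq_zero, Finset.filter_eq_empty_iff]
  intro p hp
  rcases Finset.mem_insert.1 hp with rfl | hp
  · omega
  · have := ht p hp
    omega

theorem rk_insert {a : ℕ} {t : Finset ℕ} (ht : ∀ p ∈ t, a < p) {p : ℕ} (hp : p ∈ t) :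
    rk (insert a t) p = 1 + rk t p := by
  unfold rk
  rw [Finset.filter_insert, if_pos (ht p hp), Finset.card_insert_of_notMem, add_comm]
  intro h
  have := ht a (Finset.mem_filter.1 h).1
  omega

theorem sum_insert_rk {N : ℕ} {a i : ℕ} {t : Finset ℕ} (ht : ∀ p ∈ t, a < p) :
    ∑ p ∈ insert a t, (3 : ZMod (3 ^ N)) ^ (i + rk (insert a t) p) * (2 : ZMod (3 ^ N))⁻¹ ^ p
      = 3 ^ i * (2 : ZMod (3 ^ N))⁻¹ ^ a
        + ∑ p ∈ t, 3 ^ (i + 1 + rk t p) * (2 : ZMod (3 ^ N))⁻¹ ^ p := by
  have ha : a ∉ t := fun h => lt_irrefl a (ht a h)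
  rw [Finset.sum_insert ha, rk_insert_self ht, add_zero]
  congr 1
  apply Finset.sum_congr rfl
  intro p hp
  rw [rk_insert ht hp, ← add_assoc]

theorem aws : AwsStmt := by
  classical
  intro N S ξ n
  induction n with
  | zero =>
    intro i l
    rw [Finset.sum_filter]
    have h0 : Finset.Icc (l + 1) (l + 0) = ∅ := by
      rw [Finset.Icc_eq_empty]
      omega
    rw [h0, Finset.powerset_empty, Finset.sum_singleton]
    simp only [Finset.card_empty, Finset.sum_empty, add_zero, mul_zero, neg_zero, pow_zero,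
      one_mul, Aw]
    split_ifs
    · exact AddChar.map_zero_eq_one _
    · rfl
  | succ n ih =>
    intro i l
    have ih0 := ih i (l + 1)
    have ih1 := ih (i + 1) (l + 1)
    rw [Finset.sum_filter] at ih0 ih1 ⊢
    have hI : Finset.Icc (l + 1) (l + (n + 1)) = insert (l + 1) (Finset.Icc (l + 1 + 1) (l + 1 + n)) := by
      ext x
      simp only [Finset.mem_Icc, Finset.mem_insert]
      omega
    have hnot : l + 1 ∉ Finset.Icc (l + 1 + 1) (l + 1 + n) := by
      rw [Finset.mem_Icc]
      omega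
    rw [hI, Finset.sum_powerset_insert hnot, ih0]
    have hsec : ∑ t ∈ (Finset.Icc (l + 1 + 1) (l + 1 + n)).powerset,
        (if i + (insert (l + 1) t).card ∈ S then
          ZMod.stdAddChar (-(ξ * ∑ p ∈ insert (l + 1) t,
            3 ^ (i + rk (insert (l + 1) t) p) * (2 : ZMod (3 ^ N))⁻¹ ^ p)) else (0 : ℂ))
        = ZMod.stdAddChar (-(ξ * 3 ^ i * (2 : ZMod (3 ^ N))⁻¹ ^ (l + 1))) *
          ∑ t ∈ (Finset.Icc (l + 1 + 1) (l + 1 + n)).powerset,
            (if i + 1 + t.card ∈ S then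
              ZMod.stdAddChar (-(ξ * ∑ p ∈ t,
                3 ^ (i + 1 + rk t p) * (2 : ZMod (3 ^ N))⁻¹ ^ p)) else (0 : ℂ)) := by
      rw [Finset.mul_sum]
      apply Finset.sum_congr rfl
      intro t ht
      rw [Finset.mem_powerset] at ht
      have hlt : ∀ p ∈ t, l + 1 < p := by
        intro p hp
        have := Finset.mem_Icc.1 (ht hp)
        omega
      have hnt : l + 1 ∉ t := fun h => lt_irrefl _ (hlt _ h)
      rw [Finset.card_insert_of_notMem hnt, sum_insert_rk hlt]
      have e1 : i + (t.card + 1) = i + 1 + t.card := by ring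
      rw [e1]
      by_cases hS : i + 1 + t.card ∈ S
      · rw [if_pos hS, if_pos hS, ← AddChar.map_add_eq_mul]
        congr 1
        ring
      · rw [if_neg hS, if_neg hS, mul_zero]
    rw [hsec, ih1]
    simp only [Aw]
    rw [pow_succ]
    ring

end Pool.Agent.WIR.H47
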