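import Pool.Agent.WIR.StmtsB

/-!
Squad WIR, row CLU: clusters of bad points.
-/

set_option autoImplicit false

namespace Pool.Agent.WIR.H47

open Pool.Agent.WIR

theorem clu (hLAM : LamStmt) (hDSJ : DsjStmt) : CluStmt := by
  intro h b Q t hT q j l y β J1 J2 hq hTri hβ hjJ hJ hlt hb1 hb2
  obtain ⟨hlam3, hlam317, hlamw⟩ := hLAM
  obtain ⟨q1, hq1, hT1, hx1⟩ := hb1
  obtain ⟨q2, hq2, hT2, hx2⟩ := hb2
  obtain ⟨ha, hb', hc⟩ := hTri
  obtain ⟨ha1, hb1, hc1⟩ := hT1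
  obtain ⟨ha2, hb2, hc2⟩ := hT2
  push_cast at hc hc1 hc2
  have hJr : (J1 : ℝ) + 1 ≤ J2 := by exact_mod_cast hlt
  by_cases h12 : q1 = q2
  · subst h12
    by_contra hno
    rw [not_or, not_lt, not_lt] at hno
    obtain ⟨hy, -⟩ := hno
    have hyr : (J1 : ℝ) + (y + 3) ≤ J2 := by exact_mod_cast hy
    have hlamJ : (y : ℝ) + 3 ≤ lam * ((J2 : ℝ) - J1) := by nlinarith
    have hTA : Tri q1 (t q1) (J1 + 1) q.2 := by
      refine ⟨ha1, by omega, ?_⟩
      push_cast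
      nlinarith
    have hblack := (hT.sub q1 hq1 _ _ hTA).1
    have hs3 : 3 ≤ q.2 - l := by omega
    obtain ⟨w, hw1, hw2⟩ := hlamw (q.2 - l) hs3
    have hsr : ((q.2 - l : ℕ) : ℝ) = (q.2 : ℝ) - l := by
      rw [Nat.cast_sub (by omega)]
    rw [hsr] at hw1
    have hTB : ∀ j'' : ℕ, j + 1 ≤ j'' → j'' ≤ j + 1 + w → Tri q (t q) j'' q.2 := by
      intro j'' h1 h2
      refine ⟨by omega, le_refl _, ?_⟩
      have h3 : (j'' : ℝ) ≤ j + 1 + w := by exact_mod_cast h2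
      nlinarith
    have hTC : Tri q (t q) (J1 + 1) q.2 := by
      by_cases hJw : J1 ≤ j + w
      · exact hTB (J1 + 1) (by omega) (by omega)
      · exact hT.sep q hq (j + 1 + w) q.2 (J1 + 1) q.2 (hTB _ (by omega) (le_refl _)) hblack
          (by omega) (by omega) (by omega) (by omega)
    have heq := hDSJ h b Q t hT q q1 (J1 + 1) q.2 hq hq1 hTC hTA
    subst heq
    omega
  · right
    by_contra hno
    rw [not_lt] at hno
    apply h12
    have hnr : (J2 : ℝ) ≤ J1 + β := by exact_mod_cast hno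
    have hβr : (4 : ℝ) ≤ β := by exact_mod_cast hβ
    set u : ℕ := ⌈lam * ((J2 : ℝ) - J1)⌉₊ with hu
    have hu1 : lam * ((J2 : ℝ) - J1) ≤ u := Nat.le_ceil _
    have hu2 : (u : ℝ) < lam * ((J2 : ℝ) - J1) + 1 := Nat.ceil_lt_add_one (by nlinarith)
    have hu3 : (u : ℝ) ≤ 4 * β - 2 := by nlinarith
    have hu4 : u + 2 ≤ 4 * β := by
      have : (u : ℝ) + 2 ≤ 4 * β := by linarith
      exact_mod_cast this
    refine hDSJ h b Q t hT q1 q2 (J2 + 1) (q.2 + y + 3 + u) hq1 hq2 ?_ ?_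
    · refine ⟨by omega, by omega, ?_⟩
      push_cast
      nlinarith
    · refine ⟨ha2, by omega, ?_⟩
      push_cast
      linarith

end Pool.Agent.WIR.H47
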