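import Pool.Agent.WIR.StmtsE

/-! WIR, block E, row MEA: integration of functions of finite level on `Z_3`. -/

namespace Pool.Agent.WIR.H47

open scoped BigOperators ENNReal
open MeasureTheory

theorem fib_eq (N : ℕ) (x₀ : ℤ_[3]) :
    {x : ℤ_[3] | PadicInt.toZModPow N x = PadicInt.toZModPow N x₀}
      = Metric.closedBall x₀ ((3 : ℕ) ^ (-(N : ℤ)) : ℝ) := by
  ext x
  rw [Set.mem_ofPred_eq, Metric.mem_closedBall, dist_eq_norm,
    PadicInt.norm_le_pow_iff_mem_span_pow, ← PadicInt.ker_toZModPow, RingHom.mem_ker, map_sub,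
    sub_eq_zero]

theorem fib_meas (N : ℕ) (y : ZMod (3 ^ N)) :
    MeasurableSet {x : ℤ_[3] | PadicInt.toZModPow N x = y} := by
  obtain ⟨x₀, rfl⟩ := ZMod.ringHom_surjective (PadicInt.toZModPow (p := 3) N) y
  rw [fib_eq]
  exact Metric.isClosed_closedBall.measurableSet

theorem haar3 : Measure.IsAddHaarMeasure μ3 := by
  unfold μ3
  infer_instance

theorem prob3 : IsProbabilityMeasure μ3 := by
  constructor
  have h := Measure.addHaarMeasure_self (G := ℤ_[3]) (K₀ := ⊤)
  exact h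

theorem fib_inv (N : ℕ) (y : ZMod (3 ^ N)) :
    μ3 {x : ℤ_[3] | PadicInt.toZModPow N x = y}
      = μ3 {x : ℤ_[3] | PadicInt.toZModPow N x = 0} := by
  haveI := haar3
  obtain ⟨x₀, rfl⟩ := ZMod.ringHom_surjective (PadicInt.toZModPow (p := 3) N) y
  rw [← measure_preimage_add μ3 (-x₀) {x : ℤ_[3] | PadicInt.toZModPow N x = 0}]
  congr 1
  ext x
  rw [Set.mem_ofPred_eq, Set.mem_preimage, Set.mem_ofPred_eq, map_add, map_neg,
    neg_add_eq_sub, sub_eq_zero]

theorem mea : MeaStmt := by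
  haveI := prob3
  refine ⟨prob3, fun N g => ?_⟩
  letI : MeasurableSpace (ZMod (3 ^ N)) := ⊤
  haveI : MeasurableSingletonClass (ZMod (3 ^ N)) := ⟨fun _ => trivial⟩
  have hm : Measurable (fun x : ℤ_[3] => PadicInt.toZModPow N x) := by
    refine measurable_to_countable' fun y => ?_
    exact fib_meas N y
  have hg : Measurable g := measurable_from_top
  refine ⟨hg.comp hm, ?_⟩
  rw [← lintegral_map hg hm, lintegral_fintype]
  have h1 : ∀ y : ZMod (3 ^ N),
      (Measure.map (fun x : ℤ_[3] => PadicInt.toZModPow N x) μ3) {y}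
        = μ3 {x : ℤ_[3] | PadicInt.toZModPow N x = 0} := by
    intro y
    rw [Measure.map_apply hm (measurableSet_singleton y), ← fib_inv N y]
    rfl
  have h2 : (3 : ℝ≥0∞) ^ N * μ3 {x : ℤ_[3] | PadicInt.toZModPow N x = 0} = 1 := by
    have h3 : (Measure.map (fun x : ℤ_[3] => PadicInt.toZModPow N x) μ3) Set.univ = 1 := by
      rw [Measure.map_apply hm MeasurableSet.univ, Set.preimage_univ]
      exact measure_univ
    have h4 := lintegral_fintype
      (μ := Measure.map (fun x : ℤ_[3] => PadicInt.toZModPow N x) μ3)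
      (fun _ : ZMod (3 ^ N) => (1 : ℝ≥0∞))
    rw [lintegral_one, h3] at h4
    rw [h4]
    simp only [h1, one_mul, Finset.sum_const, Finset.card_univ, ZMod.card, nsmul_eq_mul,
      Nat.cast_pow, Nat.cast_ofNat]
  have h5 : μ3 {x : ℤ_[3] | PadicInt.toZModPow N x = 0} = ((3 : ℝ≥0∞) ^ N)⁻¹ :=
    ENNReal.eq_inv_of_mul_eq_one_left (by rw [mul_comm]; exact h2)
  simp only [h1, h5]
  rw [← Finset.sum_mul, div_eq_mul_inv]

end Pool.Agent.WIR.H47
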